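import Pool.Agent.LibSphEl41.Circle

/-!
# Positive definite functions on spheres without continuity, dimension at least four

For `n ≥ 4`, every function `f` that is positive definite on the unit sphere of `ℝⁿ` (no
continuity or measurability is assumed) is, on `[-1, 1]`, of the form
`f(x) = a χ(x) + b x χ(x) + g(x)` with `a, b ≥ 0`, `χ` the indicator function of `{-1, 1}` and
`g` continuous on `[-1, 1]` and positive definite on the unit sphere of `ℝⁿ`.

Idea of the proof: let `K` be the infimum of the `k` for which `{f ≥ k}` is finite. For infinitely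
many `t` the value `f t` is almost `K`; finitely many such `t` are the inner products of all points
of a circle in `ℝ⁴` with finitely many points of the orthogonal plane through its axis. In the
Hilbert space of the kernel the averages over the circle points and over the axis points almost
coincide, so for every test point `z` the function `x ↦ f ⟨x, z⟩` is almost constant on the circle
up to finitely many points. Hence `f` has a limit `g(t)` at every `t`. Averaging over small
rotations shows that `g` and `f - g` are positive definite, and that `f - g` vanishes in `(-1, 1)`.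
-/

open scoped RealInnerProductSpace

namespace Pool.Agent.Results.MP_192f6d_an.DimAtLeastFour

/-- `f` is positive definite on the unit sphere `S^(n-1)` of `ℝⁿ`: for all unit vectors
`x₁, …, x_m` the matrix `f ⟨x_i, x_j⟩` is positive semidefinite. Only the values of `f` on
`[-1, 1]` matter. -/
def PosDefOnSphere (n : ℕ) (f : ℝ → ℝ) : Prop :=
  ∀ (m : ℕ) (x : Fin m → EuclideanSpace ℝ (Fin n)), (∀ i, ‖x i‖ = 1) →
    (Matrix.of fun i j => f ⟪x i, x j⟫ : Matrix (Fin m) (Fin m) ℝ).PosSemidef

/-- The indicator function of `{-1, 1}`. -/
noncomputable def chi (x : ℝ) : ℝ := Set.indicator {-1, 1} 1 x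

theorem result (n : ℕ) (hn : 4 ≤ n) (f : ℝ → ℝ) (hf : PosDefOnSphere n f) :
    ∃ (a b : ℝ) (g : ℝ → ℝ), 0 ≤ a ∧ 0 ≤ b ∧ ContinuousOn g (Set.Icc (-1) 1) ∧
      PosDefOnSphere n g ∧
      ∀ x ∈ Set.Icc (-1 : ℝ) 1, f x = a * chi x + b * (x * chi x) + g x :=
  SphEl41.main hn (EuclideanSpace.basisFun (Fin n) ℝ) hf

end Pool.Agent.Results.MP_192f6d_an.DimAtLeastFour
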